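import Pool.Agent.Helper9.FX.StP

/-!
# Project FX, module PGK: facts on the matrices `gk` and `Sk`
-/

set_option autoImplicit false

namespace Pool.Agent.Helper20.FX

open Complex
open Pool.Agent.Helper9.FX
open Pool.Agent.Helper72.FX (nu J0)

private theorem gk00 (k u a b t : ℂ) : gk k u a b t 0 0 =
    (al u + I * be u) * ((2 + t * b) / 2) + (k * (I - 1) * u * (1 - u)) * (-(t * a) / 4) +
      (-(k * (1 + I) * u * (1 - u))) * a + (al u - I * be u) * (-(t * b) / 2) := by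
  simp [gk, e11, e12, e21, e22]

private theorem gk01 (k u a b t : ℂ) : gk k u a b t 0 1 =
    (al u + I * be u) * (-a / 2) + (k * (I - 1) * u * (1 - u)) * ((2 + t * b) / 4) +
      (-(k * (1 + I) * u * (1 - u))) * (-b) + (al u - I * be u) * (a / 2) := by
  simp [gk, e11, e12, e21, e22]

private theorem gk10 (k u a b t : ℂ) : gk k u a b t 1 0 =
    (al u + I * be u) * (t * a / 2) + (k * (I - 1) * u * (1 - u)) * (-(t ^ 2 * b) / 4) +
      (-(k * (1 + I) * u * (1 - u))) * (2 + t * b) + (al u - I * be u) * (-(t * a) / 2) := by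
  simp [gk, e11, e12, e21, e22]

private theorem gk11 (k u a b t : ℂ) : gk k u a b t 1 1 =
    (al u + I * be u) * (-(t * b) / 2) + (k * (I - 1) * u * (1 - u)) * (t * a / 4) +
      (-(k * (1 + I) * u * (1 - u))) * (-a) + (al u - I * be u) * ((2 + t * b) / 2) := by
  simp [gk, e11, e12, e21, e22]

private theorem det_form (A B C D a b t : ℂ) (h : nu a b t = 0) :
    (A * ((2 + t * b) / 2) + B * (-(t * a) / 4) + C * a + D * (-(t * b) / 2)) *
      (A * (-(t * b) / 2) + B * (t * a / 4) + C * (-a) + D * ((2 + t * b) / 2)) -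
    (A * (-a / 2) + B * ((2 + t * b) / 4) + C * (-b) + D * (a / 2)) *
      (A * (t * a / 2) + B * (-(t ^ 2 * b) / 4) + C * (2 + t * b) + D * (-(t * a) / 2)) =
    A * D - B * C := by
  unfold nu at h
  linear_combination (-t * (A ^ 2 + D ^ 2) / 4 + t ^ 2 * B ^ 2 / 16 + C ^ 2 + t * A * D / 2 -
    t * B * C / 2) * h

private theorem det_gk (k u a b t : ℂ) (h : nu a b t = 0) : (gk k u a b t).det = nk k u := by
  rw [Matrix.det_fin_two, gk00, gk01, gk10, gk11, det_form _ _ _ _ a b t h]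
  unfold al be nk
  linear_combination (-(2 * u - u ^ 2) ^ 2 + k ^ 2 * u ^ 2 * (1 - u) ^ 2) * I_sq

private theorem gk_zero (k a b t : ℂ) : gk k 0 a b t = 1 := by
  ext i j
  fin_cases i <;> fin_cases j
  · show gk k 0 a b t 0 0 = (1 : Matrix (Fin 2) (Fin 2) ℂ) 0 0
    rw [gk00]; simp [al, be]; ring
  · show gk k 0 a b t 0 1 = (1 : Matrix (Fin 2) (Fin 2) ℂ) 0 1
    rw [gk01]; simp [al, be]; ring
  · show gk k 0 a b t 1 0 = (1 : Matrix (Fin 2) (Fin 2) ℂ) 1 0
    rw [gk10]; simp [al, be]; ring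
  · show gk k 0 a b t 1 1 = (1 : Matrix (Fin 2) (Fin 2) ℂ) 1 1
    rw [gk11]; simp [al, be]; ring

/-- entries of `g J₀ gᵀ` -/
private theorem mul_J0 (g : Matrix (Fin 2) (Fin 2) ℂ) (t : ℂ) (i j : Fin 2) :
    (g * J0 t * g.transpose) i j = g i 0 * g j 0 - t * (g i 1 * g j 1) := by
  simp [Matrix.mul_apply, J0, Fin.sum_univ_two]
  ring

private theorem gk_one (k a b t : ℂ) (h : nu a b t = 0) :
    gk k 1 a b t * J0 t * (gk k 1 a b t).transpose = -(J0 t) := by
  unfold nu at h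
  have e00 : gk k 1 a b t 0 0 = I * (1 + t * b) := by rw [gk00]; simp [al, be]; ring
  have e01 : gk k 1 a b t 0 1 = -(I * a) := by rw [gk01]; simp [al, be]; ring
  have e10 : gk k 1 a b t 1 0 = I * (t * a) := by rw [gk10]; simp [al, be]; ring
  have e11 : gk k 1 a b t 1 1 = -(I * (1 + t * b)) := by rw [gk11]; simp [al, be]; ring
  ext i j
  rw [mul_J0]
  fin_cases i <;> fin_cases j
  · show gk k 1 a b t 0 0 * gk k 1 a b t 0 0 - t * (gk k 1 a b t 0 1 * gk k 1 a b t 0 1) =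
      -(J0 t) 0 0
    rw [e00, e01]; simp only [J0, Matrix.of_apply, Matrix.cons_val_zero]
    linear_combination (1 + t * (2 * b + t * b ^ 2 - a ^ 2)) * I_sq - t * h
  · show gk k 1 a b t 0 0 * gk k 1 a b t 1 0 - t * (gk k 1 a b t 0 1 * gk k 1 a b t 1 1) =
      -(J0 t) 0 1
    rw [e00, e01, e10, e11]; simp [J0]; ring
  · show gk k 1 a b t 1 0 * gk k 1 a b t 0 0 - t * (gk k 1 a b t 1 1 * gk k 1 a b t 0 1) =
      -(J0 t) 1 0
    rw [e00, e01, e10, e11]; simp [J0]; ring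
  · show gk k 1 a b t 1 0 * gk k 1 a b t 1 0 - t * (gk k 1 a b t 1 1 * gk k 1 a b t 1 1) =
      -(J0 t) 1 1
    rw [e10, e11]; simp [J0]
    linear_combination (-t * (1 + t * (2 * b + t * b ^ 2 - a ^ 2))) * I_sq + t ^ 2 * h

private theorem gk_kzero (u a b t : ℂ) (h : nu a b t = 0) :
    gk 0 u a b t * J0 t * (gk 0 u a b t).transpose =
      (al u ^ 2 - be u ^ 2) • J0 t + (2 * I * al u * be u) • (M1 a b t * J0 t) := by
  unfold nu at h
  have e00 : gk 0 u a b t 0 0 = al u + I * be u * (1 + t * b) := by rw [gk00]; ring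
  have e01 : gk 0 u a b t 0 1 = -(I * be u * a) := by rw [gk01]; ring
  have e10 : gk 0 u a b t 1 0 = I * be u * (t * a) := by rw [gk10]; ring
  have e11 : gk 0 u a b t 1 1 = al u - I * be u * (1 + t * b) := by rw [gk11]; ring
  ext i j
  rw [mul_J0]
  fin_cases i <;> fin_cases j
  · show gk 0 u a b t 0 0 * gk 0 u a b t 0 0 - t * (gk 0 u a b t 0 1 * gk 0 u a b t 0 1) =
      ((al u ^ 2 - be u ^ 2) • J0 t + (2 * I * al u * be u) • (M1 a b t * J0 t)) 0 0
    rw [e00, e01]; simp [J0, M1]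
    linear_combination (be u ^ 2 * (1 + t * (2 * b + t * b ^ 2 - a ^ 2))) * I_sq -
      be u ^ 2 * t * h
  · show gk 0 u a b t 0 0 * gk 0 u a b t 1 0 - t * (gk 0 u a b t 0 1 * gk 0 u a b t 1 1) =
      ((al u ^ 2 - be u ^ 2) • J0 t + (2 * I * al u * be u) • (M1 a b t * J0 t)) 0 1
    rw [e00, e01, e10, e11]; simp [J0, M1]; ring
  · show gk 0 u a b t 1 0 * gk 0 u a b t 0 0 - t * (gk 0 u a b t 1 1 * gk 0 u a b t 0 1) =
      ((al u ^ 2 - be u ^ 2) • J0 t + (2 * I * al u * be u) • (M1 a b t * J0 t)) 1 0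
    rw [e00, e01, e10, e11]; simp [J0, M1]; ring
  · show gk 0 u a b t 1 0 * gk 0 u a b t 1 0 - t * (gk 0 u a b t 1 1 * gk 0 u a b t 1 1) =
      ((al u ^ 2 - be u ^ 2) • J0 t + (2 * I * al u * be u) • (M1 a b t * J0 t)) 1 1
    rw [e10, e11]; simp [J0, M1]
    linear_combination (-t * be u ^ 2 * (1 + t * (2 * b + t * b ^ 2 - a ^ 2))) * I_sq +
      be u ^ 2 * t ^ 2 * h

/-- PGK -/
theorem hPGK : StPGK := by
  refine ⟨det_gk, gk_zero, gk_one, ?_, ?_, ?_, ?_, ?_⟩
  · intro u a b t h _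
    unfold Sk
    rw [gk_kzero u a b t h]
  · intro k u a b t
    simp only [Sk, Matrix.neg_apply, Matrix.smul_apply, mul_J0]
    ring
  · intro k u a b t h hn
    have hd : (gk k u a b t * J0 t * (gk k u a b t).transpose).det = -(t * nk k u ^ 2) := by
      rw [Matrix.det_mul, Matrix.det_mul, Matrix.det_transpose, det_gk k u a b t h]
      simp [J0, Matrix.det_fin_two]
      ring
    unfold Sk
    rw [Matrix.det_neg, Matrix.det_smul, hd]
    simp
    field_simp
  · intro k u h0 h1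
    refine ⟨1 + 2 * (1 - k ^ 2) * u ^ 2 * (1 - u) ^ 2, ?_, ?_⟩
    · have : 0 ≤ 1 - k ^ 2 := by nlinarith
      have : 0 ≤ 2 * (1 - k ^ 2) * u ^ 2 * (1 - u) ^ 2 := by positivity
      linarith
    · unfold nk
      push_cast
      ring
  · intro i j
    simp only [mul_J0]
    have hc : ∀ i j : Fin 2, Continuous fun q : ℂ × ℂ × ℂ × ℂ × ℂ =>
        gk q.1 q.2.1 q.2.2.1 q.2.2.2.1 q.2.2.2.2 i j := by
      intro i j
      fin_cases i <;> fin_cases j
      · show Continuous fun q : ℂ × ℂ × ℂ × ℂ × ℂ =>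
          gk q.1 q.2.1 q.2.2.1 q.2.2.2.1 q.2.2.2.2 0 0
        simp only [gk00, al, be]; fun_prop
      · show Continuous fun q : ℂ × ℂ × ℂ × ℂ × ℂ =>
          gk q.1 q.2.1 q.2.2.1 q.2.2.2.1 q.2.2.2.2 0 1
        simp only [gk01, al, be]; fun_prop
      · show Continuous fun q : ℂ × ℂ × ℂ × ℂ × ℂ =>
          gk q.1 q.2.1 q.2.2.1 q.2.2.2.1 q.2.2.2.2 1 0
        simp only [gk10, al, be]; fun_prop
      · show Continuous fun q : ℂ × ℂ × ℂ × ℂ × ℂ =>
          gk q.1 q.2.1 q.2.2.1 q.2.2.2.1 q.2.2.2.2 1 1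
        simp only [gk11, al, be]; fun_prop
    have h1 := hc i 0
    have h2 := hc j 0
    have h3 := hc i 1
    have h4 := hc j 1
    fun_prop

end Pool.Agent.Helper20.FX
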