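import Pool.Agent.Helper41.FX.StK2

/-!
# Project FX, module PMQ: `(A ⧸ J)[X] ≃ A[X] ⧸ J[X]`
-/

set_option autoImplicit false

namespace Pool.Agent.Helper20.FX

open Polynomial
open Pool.Agent.Helper41.FX

/-- the map `p ↦ p • single 0 1` -/
private noncomputable def phi (A : Type) [CommRing A] (J : Ideal A) :
    A[X] →ₗ[A[X]] PolynomialModule A (A ⧸ J) :=
  LinearMap.toSpanSingleton A[X] _ (PolynomialModule.single A 0 (Ideal.Quotient.mk J 1))

private theorem phi_coeff (A : Type) [CommRing A] (J : Ideal A) (p : A[X]) (n : ℕ) :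
    (phi A J p).coeff n = Ideal.Quotient.mk J (p.coeff n) := by
  unfold phi
  rw [LinearMap.toSpanSingleton_apply, PolynomialModule.smul_single_apply]
  simp only [Nat.zero_le, if_true, Nat.sub_zero]
  rw [← Ideal.Quotient.mk_eq_mk, ← Ideal.Quotient.mk_eq_mk, ← Submodule.Quotient.mk_smul]
  simp

private theorem phi_surj (A : Type) [CommRing A] (J : Ideal A) :
    Function.Surjective (phi A J) := by
  intro g
  induction g using PolynomialModule.induction_linear with
  | zero => exact ⟨0, map_zero _⟩
  | add p q hp hq =>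
    obtain ⟨a, ha⟩ := hp
    obtain ⟨b, hb⟩ := hq
    exact ⟨a + b, by rw [map_add, ha, hb]⟩
  | single n m =>
    obtain ⟨a, rfl⟩ := Ideal.Quotient.mk_surjective m
    refine ⟨monomial n a, ?_⟩
    ext k
    rw [phi_coeff, PolynomialModule.coeff_single, coeff_monomial, Finsupp.single_apply]
    split_ifs <;> simp

private theorem phi_ker (A : Type) [CommRing A] (J : Ideal A) :
    LinearMap.ker (phi A J) = J.map (C : A →+* A[X]) := by
  ext p
  rw [LinearMap.mem_ker, Ideal.mem_map_C_iff]
  constructor
  · intro h n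
    have := phi_coeff A J p n
    rw [h] at this
    exact Ideal.Quotient.eq_zero_iff_mem.1 (by rw [← this]; simp)
  · intro h
    ext n
    rw [phi_coeff, Ideal.Quotient.eq_zero_iff_mem.2 (h n)]
    simp

/-- PMQ -/
theorem hPMQ : StPMQ := fun A _ J =>
  ⟨((Submodule.quotEquivOfEq _ _ (phi_ker A J)).symm.trans
    (LinearMap.quotKerEquivOfSurjective (phi A J) (phi_surj A J))).symm⟩

end Pool.Agent.Helper20.FX
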