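import Pool.Agent.Helper41.FX.StK2

/-!
# Project FX, module ST4 (stage 4 of the chain)
-/

set_option autoImplicit false

namespace Pool.Agent.Helper20.FX

open Polynomial
open Pool.Agent.Helper41.FX
open Pool.Agent.Helper72.FX (AF kil Gd Ck Kn pel pid gd_kil kil_mono kil_sup kil_span StSNK StDQ
  StRES StEXT StPMX)

/-- the zero function -/
private def zeroAF (A : Type) [CommRing A] (P : Pool.Agent.Helper72.FX.MC A) (Λ : Type)
    [AddCommGroup Λ] : AF A P Λ where
  f := fun _ _ _ => 0
  exact' := by intros; simp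

/-- ST4 -/
theorem hST4 (hPENC : StPENC) (hSNK : StSNK) (hDQ : StDQ) (hRES : StRES) (hEXT : StEXT)
    (hCKP : StCKP) (hPMX : StPMX) : StST4 := by
  intro P _ _ E1 E2 s Λ _ χ hχ
  obtain ⟨ψ, hψ⟩ := hEXT hDQ hSNK hRES P (Ideal.span {E1, E2, s}) Λ χ
  have hle : (Ideal.span {E1, E2, s}).map (C : P →+* P[X]) ≤
      (Ideal.span {E1}).map (C : P →+* P[X]) ⊔ Ideal.span {C E2, C s} := by
    rw [Ideal.map_span, Ideal.span_le]
    rintro x ⟨y, hy, rfl⟩
    simp only [Set.mem_insert_iff, Set.mem_singleton_iff] at hy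
    rcases hy with rfl | rfl | rfl
    · exact Ideal.mem_sup_left (Ideal.mem_map_of_mem _ (Ideal.subset_span rfl))
    · exact Ideal.mem_sup_right (Ideal.subset_span (by simp))
    · exact Ideal.mem_sup_right (Ideal.subset_span (by simp))
  have hsub : ∀ (M : Type) [AddCommGroup M] [Module P[X] M],
      kil ((Ideal.span {E1}).map (C : P →+* P[X]) ⊔ Ideal.span {C E2, C s}) M →
      kil ((Ideal.span {E1, E2, s}).map (C : P →+* P[X])) M :=
    fun M _ _ h => kil_mono hle h
  obtain ⟨χ4, h1, h2⟩ := hPENC P (Ideal.span {E1}) E2 s Λ (zeroAF P (kil (Ideal.span {E1})) Λ)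
    (ψ.mono hsub) (by
      intro N _ _ hf hk hE
      have hk2 : kil (Ideal.span {E1, E2}) N := by
        rw [Ideal.span_insert]
        exact kil_sup hk (kil_span hE)
      have hkC : kil (Ideal.span {E1, E2, s}) (Ck s N) := by
        have e : Ideal.span {E1, E2, s} = Ideal.span {E1, E2} ⊔ Ideal.span {s} := by
          rw [← Ideal.span_union, Set.insert_union, Set.singleton_union]
        rw [e]
        refine kil_sup ((gd_kil _).surj N (Ck s N) (Submodule.mkQ _)
          (Submodule.mkQ_surjective _) hk2) (kil_span fun y => ?_)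
        obtain ⟨z, rfl⟩ := Submodule.mkQ_surjective _ y
        rw [← map_smul, Submodule.mkQ_apply, Submodule.Quotient.mk_eq_zero]
        exact ⟨z, rfl⟩
      have hkK : kil (Ideal.span {E1, E2, s}) (Kn s N) := by
        have e : Ideal.span {E1, E2, s} = Ideal.span {E1, E2} ⊔ Ideal.span {s} := by
          rw [← Ideal.span_union, Set.insert_union, Set.singleton_union]
        rw [e]
        refine kil_sup ((gd_kil _).inj (Kn s N) N (Submodule.subtype _)
          (Submodule.injective_subtype _) hk2) (kil_span fun y => ?_)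
        exact Subtype.ext y.2
      have hfC : Module.Finite P (Ck s N) := inferInstance
      have hfK : Module.Finite P (Kn s N) := inferInstance
      have vC : ψ.f (Ck (C s : P[X]) (PolynomialModule P N)) = χ.f (Ck s N) := by
        obtain ⟨e⟩ := (hCKP P s N).1
        obtain ⟨-, -, -, p4, p5, -⟩ := hPMX P (Ck s N) (Ck s N) (Ck s N) LinearMap.id LinearMap.id
        rw [ψ.equiv (gd_kil _) e (p4 hfC) (p5 _ hkC), hψ (Ck s N) hfC hkC]
      have vK : ψ.f (Kn (C s : P[X]) (PolynomialModule P N)) = χ.f (Kn s N) := by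
        obtain ⟨e⟩ := (hCKP P s N).2
        obtain ⟨-, -, -, p4, p5, -⟩ := hPMX P (Kn s N) (Kn s N) (Kn s N) LinearMap.id LinearMap.id
        rw [ψ.equiv (gd_kil _) e (p4 hfK) (p5 _ hkK), hψ (Kn s N) hfK hkK]
      change (0 : Λ) = ψ.f (Ck (C s : P[X]) (PolynomialModule P N)) -
        ψ.f (Kn (C s : P[X]) (PolynomialModule P N))
      rw [vC, vK, hχ N hf hk2, sub_self])
  refine ⟨χ4, ?_, ?_⟩
  · intro M _ _ hf hk
    obtain ⟨-, -, -, p4, p5, -⟩ := hPMX P M M M LinearMap.id LinearMap.id
    have hk3 : kil ((Ideal.span {E1, E2, s}).map (C : P →+* P[X])) (PolynomialModule P M) :=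
      p5 _ hk
    have c2 : ∀ y : PolynomialModule P M, (C E2 : P[X]) • y = 0 :=
      hk3 (C E2) (Ideal.mem_map_of_mem _ (Ideal.subset_span (by simp)))
    have cs : ∀ y : PolynomialModule P M, (C s : P[X]) • y = 0 :=
      hk3 (C s) (Ideal.mem_map_of_mem _ (Ideal.subset_span (by simp)))
    have hkp : kil (pid (Ideal.span {E1}) E2 s) (PolynomialModule P M) := by
      refine kil_sup (kil_mono (Ideal.map_mono (Ideal.span_mono (by simp))) hk3)
        (kil_span fun y => ?_)
      unfold pel
      rw [sub_smul, cs, sub_zero, mul_comm, mul_smul, c2, smul_zero]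
    rw [h1 (PolynomialModule P M) (p4 hf) hkp c2]
    exact hψ M hf hk
  · intro M _ _ hf hk
    exact sub_eq_zero.1 (h2 M hf hk)

end Pool.Agent.Helper20.FX
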